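import Pool.Agent.U20.CS.Defs

/-!
# Common strip partitions: correctness of the reduction
-/

set_option autoImplicit false

namespace Pool.Agent.U20.CS

open Pool.Agent.NPC Pool.Agent.NPC.H632 Pool.Agent.H557R2.Tri

theorem len23 {b : List ℕ} (h : 2 ≤ b.length) (h' : b.length ≤ 3) :
    (∃ x y, b = [x, y]) ∨ ∃ x y z, b = [x, y, z] := by
  match b, h, h' with
  | [x, y], _, _ => exact Or.inl ⟨x, y, rfl⟩
  | [x, y, z], _, _ => exact Or.inr ⟨x, y, z, rfl⟩

theorem W_split {p : List (List ℕ)} {t : Tri} (h : p.flatten = W t)
    (hp : ∀ b ∈ p, 2 ≤ b.length ∧ b.length ≤ 3 ∧ ∀ y, b ≠ [5, 16 * y + 2, 6]) :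
    p = sel t ∨ p = uns t := by
  obtain ⟨x, y, z⟩ := t
  unfold W at h
  unfold sel uns sa sb sc na nb nc
  dsimp only at h ⊢
  match p, h, hp with
  | [], h, _ => simp at h
  | [b], h, hp =>
    have h1 := hp b (by simp)
    have h2 := congrArg List.length h
    simp at h2
    omega
  | [b, b'], h, hp =>
    have h1 := hp b (by simp)
    have h1' := hp b' (by simp)
    have h2 := congrArg List.length h
    simp at h2
    omega
  | b :: b' :: b'' :: b''' :: r, h, hp =>
    have h1 := hp b (by simp)
    have h2 := hp b' (by simp)
    have h3 := hp b'' (by simp)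
    have h4 := hp b''' (by simp)
    have h5 := congrArg List.length h
    simp at h5
    omega
  | [b, b', b''], h, hp =>
    have h1 := hp b (by simp)
    have h2 := hp b' (by simp)
    have h3 := hp b'' (by simp)
    rcases len23 h1.1 h1.2.1 with ⟨x1, x2, rfl⟩ | ⟨x1, x2, x3, rfl⟩ <;>
    rcases len23 h2.1 h2.2.1 with ⟨y1, y2, rfl⟩ | ⟨y1, y2, y3, rfl⟩ <;>
    rcases len23 h3.1 h3.2.1 with ⟨z1, z2, rfl⟩ | ⟨z1, z2, z3, rfl⟩ <;>
    simp only [List.flatten_cons, List.flatten_nil, List.cons_append, List.nil_append,
      List.cons.injEq, List.append_nil, reduceCtorEq, and_false, and_true] at h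
    · obtain ⟨rfl, rfl, rfl, rfl, rfl, rfl, rfl⟩ := h
      right
      rfl
    · obtain ⟨rfl, rfl, rfl, rfl, rfl, rfl, rfl⟩ := h
      exact absurd rfl (h2.2.2 y)
    · obtain ⟨rfl, rfl, rfl, rfl, rfl, rfl, rfl⟩ := h
      left
      rfl

theorem extract (tail : List (List ℕ)) : ∀ (S : List Tri) (BB : List (List (List ℕ))),
    (∀ p ∈ BB, ∀ b ∈ p, 2 ≤ b.length ∧ b.length ≤ 3 ∧ ∀ y, b ≠ [5, 16 * y + 2, 6]) →
    BB.map List.flatten = (S.flatMap fun t => [W t, U]) ++ tail →
    ∃ (C D : List Tri) (BB' : List (List (List ℕ))),
      BB.flatten.Perm (C.flatMap sel ++ D.flatMap uns ++ (S.map fun _ => U) ++ BB'.flatten) ∧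
      (C ++ D).Perm S ∧ BB'.map List.flatten = tail ∧ ∀ p ∈ BB', p ∈ BB := by
  intro S
  induction S with
  | nil =>
    intro BB _ h
    exact ⟨[], [], BB, by simp, by simp, by simpa using h, fun p hp => hp⟩
  | cons t S ih =>
    intro BB hg h
    simp only [List.flatMap_cons, List.cons_append, List.nil_append] at h
    match BB, h, hg with
    | [], h, _ => simp at h
    | [p], h, _ => simp at h
    | p :: u :: BB, h, hg =>
      simp only [List.map_cons, List.cons.injEq] at h
      obtain ⟨hp, hu, hBB⟩ := h
      obtain ⟨C, D, BB', h1, h2, h3, h4⟩ := ih BB (fun q hq => hg q (by simp [hq])) hBB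
      have hu' : u = [U] := single hu (by simp [U]) (by simp [U]) fun b hb =>
        (hg u (by simp) b hb).1
      have h4' : ∀ q ∈ BB', q ∈ p :: u :: BB := fun q hq => by simp [h4 q hq]
      rcases W_split hp (fun b hb => hg p (by simp) b hb) with h5 | h5
      · refine ⟨t :: C, D, BB', ?_, by simpa using h2, h3, h4'⟩
        rw [List.perm_iff_count] at h1 ⊢
        intro a
        have h6 := h1 a
        simp only [List.flatten_cons, h5, hu', List.map_cons, List.flatMap_cons, List.count_append,
          List.count_cons, List.count_nil] at h6 ⊢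
        omega
      · refine ⟨C, t :: D, BB', ?_, ?_, h3, h4'⟩
        · rw [List.perm_iff_count] at h1 ⊢
          intro a
          have h6 := h1 a
          simp only [List.flatten_cons, h5, hu', List.map_cons, List.flatMap_cons,
            List.count_append, List.count_cons, List.count_nil] at h6 ⊢
          omega
        · exact (List.perm_middle).trans (List.Perm.cons _ h2)

/-- The component number `r` of a triple. -/
def cp (r : ℕ) (t : Tri) : ℕ := if r = 0 then t.1 else if r = 1 then t.2.1 else t.2.2

theorem map_cmp (S : List Tri) (r : ℕ) : (List.range S.length).map (cmp S r) = S.map (cp r) := by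
  apply List.ext_getElem
  · simp
  · intro i h1 h2
    have h3 : i < S.length := by simpa using h1
    simp only [List.getElem_map, List.getElem_range]
    unfold Pool.Agent.H557R2.Tri.cmp cp
    rw [List.getD_eq_getElem _ _ h3]

/-- The first occurrences. -/
def F (S : List Tri) (r : ℕ) : List ℕ :=
  ((List.range S.length).filter fun i => rl S r i).map (cmp S r)
def N (S : List Tri) (r : ℕ) : List ℕ :=
  ((List.range S.length).filter fun i => !rl S r i).map (cmp S r)

theorem FN_perm (S : List Tri) (r : ℕ) : (F S r ++ N S r).Perm (S.map (cp r)) := by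
  unfold F N
  rw [← List.map_append, ← map_cmp]
  exact (List.filter_append_perm _ _).map _

theorem rl_iff {S : List Tri} {r i : ℕ} :
    rl S r i = true ↔ ∀ j < S.length, j < i → cmp S r j ≠ cmp S r i := by
  unfold rl
  simp only [List.all_eq_true, List.mem_range, Bool.not_eq_true', Bool.and_eq_false_imp,
    decide_eq_true_eq, decide_eq_false_iff_not]

theorem F_nodup (S : List Tri) (r : ℕ) : (F S r).Nodup := by
  unfold F
  refine List.Nodup.map_on ?_ ((List.nodup_range).filter _)
  intro i hi j hj hij
  simp only [List.mem_filter, List.mem_range] at hi hj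
  by_contra hne
  rcases Nat.lt_or_gt_of_ne hne with h | h
  · exact rl_iff.1 hj.2 i hi.1 h hij
  · exact rl_iff.1 hi.2 j hj.1 h hij.symm

theorem mem_F {S : List Tri} {r x : ℕ} : x ∈ F S r ↔ x ∈ S.map (cp r) := by
  classical
  constructor
  · intro h
    exact (FN_perm S r).subset (List.mem_append_left _ h)
  · rw [← map_cmp]
    intro h
    obtain ⟨i, hi, hx⟩ := List.mem_map.1 h
    rw [List.mem_range] at hi
    have hex : ∃ j, j < S.length ∧ cmp S r j = x := ⟨i, hi, hx⟩
    unfold F
    refine List.mem_map.2 ⟨Nat.find hex, ?_, (Nat.find_spec hex).2⟩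
    rw [List.mem_filter, List.mem_range]
    refine ⟨(Nat.find_spec hex).1, rl_iff.2 fun j hj hlt he => ?_⟩
    exact Nat.find_min hex hlt ⟨hj, he.trans (Nat.find_spec hex).2⟩

theorem flatMap_triple {β γ : Type} (f g h : β → γ) (l : List β) :
    (l.flatMap fun t => [f t, g t, h t]).Perm (l.map f ++ l.map g ++ l.map h) := by
  induction l with
  | nil => simp
  | cons t l ih =>
    classical
    rw [List.perm_iff_count] at ih ⊢
    intro a
    have h6 := ih a
    simp only [List.flatMap_cons, List.map_cons, List.count_append, List.count_cons,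
      List.count_nil] at h6 ⊢
    omega

theorem map_ta (S : List Tri) :
    ((List.range S.length).map (ta S)).Perm ((F S 0).map sa ++ (N S 0).map na) := by
  unfold F N
  refine ((List.filter_append_perm (fun i => rl S 0 i) _).map (ta S)).symm.trans ?_
  rw [List.map_append, List.map_map, List.map_map]
  apply List.Perm.of_eq
  congr 1
  · apply List.map_congr_left
    intro i hi
    have := (List.mem_filter.1 hi).2
    simp [ta, this]
  · apply List.map_congr_left
    intro i hi
    have := (List.mem_filter.1 hi).2
    simp only [Bool.not_eq_true'] at this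
    simp [ta, this]

theorem map_tb (S : List Tri) :
    ((List.range S.length).map (tb S)).Perm ((F S 1).map sb ++ (N S 1).map nb) := by
  unfold F N
  refine ((List.filter_append_perm (fun i => rl S 1 i) _).map (tb S)).symm.trans ?_
  rw [List.map_append, List.map_map, List.map_map]
  apply List.Perm.of_eq
  congr 1
  · apply List.map_congr_left
    intro i hi
    have := (List.mem_filter.1 hi).2
    simp [tb, this]
  · apply List.map_congr_left
    intro i hi
    have := (List.mem_filter.1 hi).2
    simp only [Bool.not_eq_true'] at this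
    simp [tb, this]

theorem map_tc (S : List Tri) :
    ((List.range S.length).map (tc S)).Perm ((F S 2).map sc ++ (N S 2).map nc) := by
  unfold F N
  refine ((List.filter_append_perm (fun i => rl S 2 i) _).map (tc S)).symm.trans ?_
  rw [List.map_append, List.map_map, List.map_map]
  apply List.Perm.of_eq
  congr 1
  · apply List.map_congr_left
    intro i hi
    have := (List.mem_filter.1 hi).2
    simp [tc, this]
  · apply List.map_congr_left
    intro i hi
    have := (List.mem_filter.1 hi).2
    simp only [Bool.not_eq_true'] at this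
    simp [tc, this]

/-- The tokens. -/
def tok (S : List Tri) : List (List ℕ) :=
  ((F S 0).map sa ++ (N S 0).map na) ++ ((F S 1).map sb ++ (N S 1).map nb) ++
    ((F S 2).map sc ++ (N S 2).map nc)

theorem segT_perm (S : List Tri) :
    (segT S).Perm (tok S ++ ((S.map fun _ => U) ++ S.flatMap fun _ => [V, V, V])) := by
  unfold segT
  have h1 : ((List.range S.length).flatMap fun i => [ta S i, V, tb S i, V, tc S i, V]).Perm
      (((List.range S.length).flatMap fun i => [ta S i, tb S i, tc S i]) ++
        (List.range S.length).flatMap fun _ => [V, V, V]) := by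
    refine List.Perm.trans ?_ (List.flatMap_append_perm _ _ _).symm
    refine List.Perm.flatMap_left _ fun i _ => ?_
    simp only [List.cons_append, List.nil_append]
    refine List.Perm.cons _ ?_
    refine (List.Perm.swap _ _ _).trans (List.Perm.cons _ ?_)
    refine (List.Perm.cons _ (List.Perm.swap _ _ _)).trans ?_
    exact List.Perm.swap _ _ _
  have h2 : ((List.range S.length).flatMap fun _ => [V, V, V]) = S.flatMap fun _ => [V, V, V] := by
    have : ∀ (l : List ℕ) (m : List Tri), l.length = m.length →
        (l.flatMap fun _ => [V, V, V]) = m.flatMap fun _ => [V, V, V] := by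
      intro l
      induction l with
      | nil =>
        intro m hm
        cases m with
        | nil => rfl
        | cons _ _ => simp at hm
      | cons a l ih =>
        intro m hm
        cases m with
        | nil => simp at hm
        | cons b m =>
          rw [List.flatMap_cons, List.flatMap_cons, ih m (by simpa using hm)]
    exact this _ _ (by simp)
  have h3 : ((List.range S.length).flatMap fun i => [ta S i, tb S i, tc S i]).Perm (tok S) :=
    (flatMap_triple _ _ _ _).trans (((map_ta S).append (map_tb S)).append (map_tc S))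
  refine ((h1.trans (h3.append (List.Perm.of_eq h2))).append_right _).trans ?_
  rw [List.append_assoc]
  exact List.Perm.append_left _ List.perm_append_comm

end Pool.Agent.U20.CS
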