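import Mathlib

/-!
# Common strip partitions: cuts of a strip partition
-/

set_option autoImplicit false

namespace Pool.Agent.U20.CS

variable {α : Type}

/-- A factorisation of `X ++ Y` either splits at the junction or has a block across it. -/
theorem split_at : ∀ (B : List (List α)) (X Y : List α), B.flatten = X ++ Y →
    (∃ B1 B2, B = B1 ++ B2 ∧ B1.flatten = X ∧ B2.flatten = Y) ∨
    (∃ b ∈ B, ∃ x y X' Y', b = x ++ y ∧ x ≠ [] ∧ y ≠ [] ∧ X = X' ++ x ∧ Y = y ++ Y') := by
  intro B
  induction B with
  | nil =>
    intro X Y h
    left
    have h' : X ++ Y = [] := by simpa using h.symm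
    obtain ⟨h1, h2⟩ := List.append_eq_nil_iff.1 h'
    exact ⟨[], [], rfl, by simp [h1], by simp [h2]⟩
  | cons b B ih =>
    intro X Y h
    rw [List.flatten_cons] at h
    rcases List.append_eq_append_iff.1 h with ⟨as, h1, h2⟩ | ⟨bs, h1, h2⟩
    · rcases ih as Y h2 with ⟨B1, B2, e1, e2, e3⟩ | ⟨b', hb', x, y, X', Y', e1, e2, e3, e4, e5⟩
      · left
        exact ⟨b :: B1, B2, by simp [e1], by simp [e2, h1], e3⟩
      · right
        exact ⟨b', List.mem_cons_of_mem _ hb', x, y, b ++ X', Y', e1, e2, e3, by
          rw [h1, e4, List.append_assoc], e5⟩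
    · by_cases hX : X = []
      · left
        refine ⟨[], b :: B, rfl, by simp [hX], ?_⟩
        rw [List.flatten_cons, h, hX]
        rfl
      · by_cases hb : bs = []
        · left
          refine ⟨[b], B, rfl, ?_, ?_⟩
          · simp [h1, hb]
          · rw [h2, hb]
            rfl
        · right
          exact ⟨b, List.mem_cons_self .., X, bs, [], B.flatten, h1, hX, hb, rfl, h2⟩

/-- The relation between consecutive segments given by a relation between letters. -/
def Jn (R : α → α → Prop) (s t : List α) : Prop :=
  ∀ x ∈ s.getLast?, ∀ y ∈ t.head?, R x y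

theorem chain_across {R : α → α → Prop} {x y : List α} (h : (x ++ y).IsChain R) : Jn R x y := by
  rw [List.isChain_append] at h
  exact h.2.2

theorem cut_all {R : α → α → Prop} : ∀ (segs : List (List α)) (B : List (List α)),
    B.flatten = segs.flatten → (∀ s ∈ segs, s ≠ []) → (∀ b ∈ B, b ≠ []) →
    (∀ b ∈ B, b.IsChain R) → segs.IsChain (Jn fun a b => ¬ R a b) →
    ∃ BB : List (List (List α)), BB.flatten = B ∧ BB.map List.flatten = segs := by
  intro segs
  induction segs with
  | nil =>
    intro B hB _ hne _ _
    refine ⟨[], ?_, rfl⟩
    cases B with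
    | nil => rfl
    | cons b B =>
      exfalso
      have h1 := hne b (List.mem_cons_self ..)
      rw [List.flatten_nil, List.flatten_cons] at hB
      exact h1 (List.append_eq_nil_iff.1 hB).1
  | cons s segs ih =>
    intro B hB hs hne hR hj
    rw [List.flatten_cons] at hB
    rcases split_at B s segs.flatten hB with ⟨B1, B2, e1, e2, e3⟩ |
      ⟨b, hb, x, y, X', Y', e1, e2, e3, e4, e5⟩
    · obtain ⟨BB, h1, h2⟩ := ih B2 e3 (fun t ht => hs t (List.mem_cons_of_mem _ ht))
        (fun c hc => hne c (by rw [e1]; exact List.mem_append_right _ hc))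
        (fun c hc => hR c (by rw [e1]; exact List.mem_append_right _ hc)) hj.tail
      exact ⟨B1 :: BB, by rw [List.flatten_cons, h1, e1], by rw [List.map_cons, h2, e2]⟩
    · exfalso
      cases segs with
      | nil =>
        rw [List.flatten_nil] at e5
        exact e3 (List.append_eq_nil_iff.1 e5.symm).1
      | cons t segs =>
        have ht := hs t (by simp)
        rw [List.isChain_cons_cons] at hj
        have h1 := hj.1
        have h2 := chain_across (e1 ▸ hR b hb)
        obtain ⟨a, ha⟩ : ∃ a, a ∈ x.getLast? := ⟨x.getLast e2, List.getLast?_eq_some_getLast e2⟩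
        obtain ⟨c, hc⟩ : ∃ c, c ∈ y.head? := ⟨y.head e3, List.head?_eq_some_head e3⟩
        refine h1 a ?_ c ?_ (h2 a ha c hc)
        · rw [e4, List.getLast?_append]
          rw [Option.mem_def] at ha ⊢
          rw [ha]
          rfl
        · rw [List.flatten_cons] at e5
          obtain ⟨t0, t', rfl⟩ : ∃ t0 t', t = t0 :: t' := by
            cases t with
            | nil => exact absurd rfl ht
            | cons a t' => exact ⟨a, t', rfl⟩
          obtain ⟨y0, y', rfl⟩ : ∃ y0 y', y = y0 :: y' := by
            cases y with
            | nil => exact absurd rfl e3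
            | cons a t' => exact ⟨a, t', rfl⟩
          simp only [List.cons_append, List.cons.injEq] at e5
          simp only [List.head?_cons, Option.mem_def, Option.some.injEq] at hc ⊢
          rw [← hc, e5.1]

theorem chain_of_mem_flatten {R : α → α → Prop} : ∀ (B : List (List α)), B.flatten.IsChain R →
    ∀ b ∈ B, b.IsChain R := by
  intro B
  induction B with
  | nil => simp
  | cons c B ih =>
    intro h b hb
    rw [List.flatten_cons, List.isChain_append] at h
    rcases List.mem_cons.1 hb with rfl | hb
    · exact h.1
    · exact ih h.2.1 b hb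

theorem chain_flatten {R : α → α → Prop} : ∀ (segs : List (List α)), (∀ s ∈ segs, s ≠ []) →
    (∀ s ∈ segs, s.IsChain R) → segs.IsChain (Jn R) → segs.flatten.IsChain R := by
  intro segs
  induction segs with
  | nil => simp
  | cons s segs ih =>
    intro h1 h2 h3
    rw [List.flatten_cons, List.isChain_append]
    refine ⟨h2 s (by simp), ih (fun t ht => h1 t (List.mem_cons_of_mem _ ht))
      (fun t ht => h2 t (List.mem_cons_of_mem _ ht)) h3.tail, ?_⟩
    cases segs with
    | nil => simp
    | cons t segs =>
      rw [List.isChain_cons_cons] at h3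
      obtain ⟨t0, t', rfl⟩ : ∃ t0 t', t = t0 :: t' := by
        cases t with
        | nil => exact absurd rfl (h1 [] (by simp))
        | cons a t' => exact ⟨a, t', rfl⟩
      have h4 := h3.1
      unfold Jn at h4
      simpa using h4

/-- A factorisation into blocks of length at least two of a word with at most three letters. -/
theorem single {p : List (List α)} {s : List α} (h : p.flatten = s) (h1 : s ≠ [])
    (h3 : s.length ≤ 3) (hp : ∀ b ∈ p, 2 ≤ b.length) : p = [s] := by
  match p, h, hp with
  | [], h, _ => exact absurd h.symm h1
  | [b], h, _ =>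
    have : b = s := by simpa using h
    rw [this]
  | b :: b' :: r, h, hp =>
    exfalso
    have e1 := hp b (by simp)
    have e2 := hp b' (by simp)
    have e3 := congrArg List.length h
    simp only [List.flatten_cons, List.length_append] at e3
    omega

theorem all_single : ∀ (BB : List (List (List α))) (segs : List (List α)),
    BB.map List.flatten = segs → (∀ s ∈ segs, s ≠ [] ∧ s.length ≤ 3) →
    (∀ b ∈ BB.flatten, 2 ≤ b.length) → BB.flatten = segs := by
  intro BB
  induction BB with
  | nil =>
    intro segs h _ _
    simpa using h
  | cons p BB ih =>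
    intro segs h hs hb
    cases segs with
    | nil => simp at h
    | cons s segs =>
      simp only [List.map_cons, List.cons.injEq] at h
      have h1 := single h.1 (hs s (by simp)).1 (hs s (by simp)).2 fun b hb' =>
        hb b (by rw [List.flatten_cons]; exact List.mem_append_left _ hb')
      rw [List.flatten_cons, h1, ih segs h.2 (fun t ht => hs t (List.mem_cons_of_mem _ ht))
        fun b hb' => hb b (by rw [List.flatten_cons]; exact List.mem_append_right _ hb')]
      rfl

end Pool.Agent.U20.CS
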