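import Pool.Agent.U20.CS.Cut
import Pool.Agent.H557R2.Tri.Src

/-!
# Common strip partitions: the reduction from exact cover by 3-sets with roles
-/

set_option autoImplicit false

namespace Pool.Agent.U20.CS

open Pool.Agent.NPC Pool.Agent.NPC.H632 Pool.Agent.H557R2.Tri

/-- `B` is a strip partition of `S`. -/
def SP (B : List (List ℕ)) (S : List ℕ) : Prop := B.flatten = S ∧ ∀ b ∈ B, 2 ≤ b.length

/-- Common strip partition, with lists of blocks. -/
def CSP (S T : List ℕ) : Prop := ∃ B C : List (List ℕ), SP B S ∧ SP C T ∧ B.Perm C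

abbrev Tri : Type := ℕ × ℕ × ℕ

/-- The word of a triple. -/
def W (t : Tri) : List ℕ :=
  [16 * t.1, 16 * t.1 + 1, 5, 16 * t.2.1 + 2, 6, 16 * t.2.2 + 3, 16 * t.2.2 + 4]

def U : List ℕ := [7, 8]
def V : List ℕ := [9, 10]

def sa (x : ℕ) : List ℕ := [16 * x, 16 * x + 1, 5]
def na (x : ℕ) : List ℕ := [16 * x, 16 * x + 1]
def sb (y : ℕ) : List ℕ := [16 * y + 2, 6]
def nb (y : ℕ) : List ℕ := [5, 16 * y + 2]
def sc (z : ℕ) : List ℕ := [16 * z + 3, 16 * z + 4]
def nc (z : ℕ) : List ℕ := [6, 16 * z + 3, 16 * z + 4]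

/-- The blocks of a selected triple. -/
def sel (t : Tri) : List (List ℕ) := [sa t.1, sb t.2.1, sc t.2.2]
/-- The blocks of a triple that is not selected. -/
def uns (t : Tri) : List (List ℕ) := [na t.1, nb t.2.1, nc t.2.2]

def ta (S : List Tri) (i : ℕ) : List ℕ := bif rl S 0 i then sa (cmp S 0 i) else na (cmp S 0 i)
def tb (S : List Tri) (i : ℕ) : List ℕ := bif rl S 1 i then sb (cmp S 1 i) else nb (cmp S 1 i)
def tc (S : List Tri) (i : ℕ) : List ℕ := bif rl S 2 i then sc (cmp S 2 i) else nc (cmp S 2 i)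

/-- The segments of the first string. -/
def segS (S : List Tri) : List (List ℕ) :=
  (S.flatMap fun t => [W t, U]) ++ S.flatMap fun _ => [V, V, V]

/-- The segments of the second string. -/
def segT (S : List Tri) : List (List ℕ) :=
  ((List.range S.length).flatMap fun i => [ta S i, V, tb S i, V, tc S i, V]) ++ S.map fun _ => U

/-- Allowed adjacent kinds in the first string. -/
def RS (a b : ℕ) : Prop := (a % 16, b % 16) ∈
  [(0, 1), (1, 5), (5, 2), (2, 6), (6, 3), (3, 4), (4, 7), (7, 8), (8, 0), (8, 9), (9, 10), (10, 9)]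

/-- Allowed adjacent kinds in the second string. -/
def RT (a b : ℕ) : Prop := (a % 16, b % 16) ∈
  [(0, 1), (1, 5), (2, 6), (5, 2), (3, 4), (6, 3), (5, 9), (1, 9), (6, 9), (2, 9), (4, 9), (9, 10),
    (10, 0), (10, 2), (10, 5), (10, 3), (10, 6), (10, 7), (7, 8), (8, 7)]

instance (a b : ℕ) : Decidable (RS a b) := by unfold RS; infer_instance
instance (a b : ℕ) : Decidable (RT a b) := by unfold RT; infer_instance

def J1 (s t : List ℕ) : Prop := ∀ x ∈ s.getLast?, ∀ y ∈ t.head?, RS x y ∧ ¬ RT x y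
def J2 (s t : List ℕ) : Prop := ∀ x ∈ s.getLast?, ∀ y ∈ t.head?, RT x y ∧ ¬ RS x y

theorem mod_facts (n : ℕ) : 16 * n % 16 = 0 ∧ (16 * n + 1) % 16 = 1 ∧ (16 * n + 2) % 16 = 2 ∧
    (16 * n + 3) % 16 = 3 ∧ (16 * n + 4) % 16 = 4 := by omega

theorem J1_WU (t : Tri) : J1 (W t) U := by
  simp [J1, W, U, RS, RT, mod_facts]

theorem J1_UW (t : Tri) : J1 U (W t) := by
  simp [J1, W, U, RS, RT, mod_facts]

theorem J1_UV : J1 U V := by
  simp [J1, U, V, RS, RT]

theorem J1_VV : J1 V V := by
  simp [J1, V, RS, RT]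

theorem J2_UU : J2 U U := by
  simp [J2, U, RS, RT]

theorem J2_VU : J2 V U := by
  simp [J2, U, V, RS, RT]

theorem J2_aV (S : List Tri) (i : ℕ) : J2 (ta S i) V := by
  unfold ta
  cases rl S 0 i <;> simp [J2, V, RS, RT, mod_facts, sa, na]

theorem J2_Va (S : List Tri) (i : ℕ) : J2 V (ta S i) := by
  unfold ta
  cases rl S 0 i <;> simp [J2, V, RS, RT, mod_facts, sa, na]

theorem J2_bV (S : List Tri) (i : ℕ) : J2 (tb S i) V := by
  unfold tb
  cases rl S 1 i <;> simp [J2, V, RS, RT, mod_facts, sb, nb]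

theorem J2_Vb (S : List Tri) (i : ℕ) : J2 V (tb S i) := by
  unfold tb
  cases rl S 1 i <;> simp [J2, V, RS, RT, mod_facts, sb, nb]

theorem J2_cV (S : List Tri) (i : ℕ) : J2 (tc S i) V := by
  unfold tc
  cases rl S 2 i <;> simp [J2, V, RS, RT, mod_facts, sc, nc]

theorem J2_Vc (S : List Tri) (i : ℕ) : J2 V (tc S i) := by
  unfold tc
  cases rl S 2 i <;> simp [J2, V, RS, RT, mod_facts, sc, nc]

theorem chainJ1 (S : List Tri) : (segS S).IsChain J1 := by
  have h2 : ∀ l : List Tri, (V :: l.flatMap fun _ => [V, V, V]).IsChain J1 := by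
    intro l
    induction l with
    | nil => simp
    | cons t l ih =>
      simp only [List.flatMap_cons, List.cons_append, List.nil_append, List.isChain_cons_cons]
      exact ⟨J1_VV, J1_VV, J1_VV, ih⟩
  have h1 : ∀ l m : List Tri, (U :: ((l.flatMap fun t => [W t, U]) ++
      m.flatMap fun _ => [V, V, V])).IsChain J1 := by
    intro l m
    induction l with
    | nil =>
      cases m with
      | nil => simp
      | cons t m =>
        have := h2 m
        simp only [List.flatMap_cons, List.flatMap_nil, List.cons_append, List.nil_append,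
          List.isChain_cons_cons]
        exact ⟨J1_UV, J1_VV, J1_VV, this⟩
    | cons t l ih =>
      simp only [List.flatMap_cons, List.cons_append, List.nil_append, List.isChain_cons_cons]
      exact ⟨J1_UW t, J1_WU t, ih⟩
  exact (h1 S S).tail

theorem chainJ2 (S : List Tri) : (segT S).IsChain J2 := by
  have h2 : ∀ l : List Tri, (U :: l.map fun _ => U).IsChain J2 := by
    intro l
    induction l with
    | nil => simp
    | cons t l ih =>
      simp only [List.map_cons, List.isChain_cons_cons]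
      exact ⟨J2_UU, ih⟩
  have h1 : ∀ (l : List ℕ) (m : List Tri),
      (V :: ((l.flatMap fun i => [ta S i, V, tb S i, V, tc S i, V]) ++
        m.map fun _ => U)).IsChain J2 := by
    intro l m
    induction l with
    | nil =>
      cases m with
      | nil => simp
      | cons t m =>
        have := h2 m
        simp only [List.map_cons, List.flatMap_nil, List.nil_append, List.isChain_cons_cons]
        exact ⟨J2_VU, this⟩
    | cons t l ih =>
      simp only [List.flatMap_cons, List.cons_append, List.nil_append, List.isChain_cons_cons]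
      exact ⟨J2_Va S t, J2_aV S t, J2_Vb S t, J2_bV S t, J2_Vc S t, J2_cV S t, ih⟩
  exact (h1 _ S).tail

theorem chainRS_seg (S : List Tri) : ∀ s ∈ segS S, s ≠ [] ∧ s.IsChain RS := by
  intro s hs
  unfold segS at hs
  rcases List.mem_append.1 hs with h | h
  · obtain ⟨t, -, h⟩ := List.mem_flatMap.1 h
    simp only [List.mem_cons, List.not_mem_nil, or_false] at h
    rcases h with rfl | rfl
    · refine ⟨by simp [W], ?_⟩
      simp [W, RS, mod_facts]
    · refine ⟨by simp [U], ?_⟩
      simp [U, RS]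
  · obtain ⟨t, -, h⟩ := List.mem_flatMap.1 h
    simp only [List.mem_cons, List.not_mem_nil, or_false, or_self] at h
    subst h
    refine ⟨by simp [V], ?_⟩
    simp [V, RS]

theorem mem_segT {S : List Tri} {s : List ℕ} (hs : s ∈ segT S) : s = U ∨ s = V ∨
    (∃ x, s = sa x ∨ s = na x) ∨ (∃ x, s = sb x ∨ s = nb x) ∨ (∃ x, s = sc x ∨ s = nc x) := by
  unfold segT at hs
  rcases List.mem_append.1 hs with h | h
  · obtain ⟨i, -, h⟩ := List.mem_flatMap.1 h
    simp only [List.mem_cons, List.not_mem_nil, or_false] at h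
    rcases h with rfl | rfl | rfl | rfl | rfl | rfl
    · refine Or.inr (Or.inr (Or.inl ⟨cmp S 0 i, ?_⟩))
      unfold ta
      cases rl S 0 i
      · exact Or.inr rfl
      · exact Or.inl rfl
    · exact Or.inr (Or.inl rfl)
    · refine Or.inr (Or.inr (Or.inr (Or.inl ⟨cmp S 1 i, ?_⟩)))
      unfold tb
      cases rl S 1 i
      · exact Or.inr rfl
      · exact Or.inl rfl
    · exact Or.inr (Or.inl rfl)
    · refine Or.inr (Or.inr (Or.inr (Or.inr ⟨cmp S 2 i, ?_⟩)))
      unfold tc
      cases rl S 2 i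
      · exact Or.inr rfl
      · exact Or.inl rfl
    · exact Or.inr (Or.inl rfl)
  · obtain ⟨t, -, h⟩ := List.mem_map.1 h
    exact Or.inl h.symm

theorem chainRT_seg (S : List Tri) : ∀ s ∈ segT S, s ≠ [] ∧ s.IsChain RT := by
  intro s hs
  rcases mem_segT hs with rfl | rfl | ⟨x, rfl | rfl⟩ | ⟨x, rfl | rfl⟩ | ⟨x, rfl | rfl⟩ <;>
  · refine ⟨by simp [U, V, sa, na, sb, nb, sc, nc], ?_⟩
    simp [U, V, sa, na, sb, nb, sc, nc, RT, mod_facts]

theorem len_segT {S : List Tri} {s : List ℕ} (hs : s ∈ segT S) : 2 ≤ s.length ∧ s.length ≤ 3 := by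
  rcases mem_segT hs with rfl | rfl | ⟨x, rfl | rfl⟩ | ⟨x, rfl | rfl⟩ | ⟨x, rfl | rfl⟩ <;>
    simp [U, V, sa, na, sb, nb, sc, nc]

theorem no_mid {S : List Tri} {s : List ℕ} (hs : s ∈ segT S) (y : ℕ) : s ≠ [5, 16 * y + 2, 6] := by
  rcases mem_segT hs with rfl | rfl | ⟨x, rfl | rfl⟩ | ⟨x, rfl | rfl⟩ | ⟨x, rfl | rfl⟩ <;>
    simp [U, V, sa, na, sb, nb, sc, nc]

theorem chainS (S : List Tri) : (segS S).flatten.IsChain RS :=
  chain_flatten _ (fun s hs => (chainRS_seg S s hs).1) (fun s hs => (chainRS_seg S s hs).2)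
    ((chainJ1 S).imp fun _ _ h x hx y hy => (h x hx y hy).1)

theorem chainT (S : List Tri) : (segT S).flatten.IsChain RT :=
  chain_flatten _ (fun s hs => (chainRT_seg S s hs).1) (fun s hs => (chainRT_seg S s hs).2)
    ((chainJ2 S).imp fun _ _ h x hx y hy => (h x hx y hy).1)

end Pool.Agent.U20.CS
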