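import Pool.Agent.U20.CS.Main
import Pool.Agent.H671R2.PolyAuto
import Pool.Agent.H557R2.Tri.Red

/-!
# Common strip partitions: balanced instances and polynomial time
-/

set_option autoImplicit false

namespace Pool.Agent.U20.CS

open Pool.Agent.NPC Pool.Agent.NPC.H632 Pool.Agent.H557R2.Tri

/-! ### The definition of the problem -/

/-- `S` and `T` admit a common strip partition: there are factorisations `S = B 0 ⋯ B (r - 1)` and
`T = C 0 ⋯ C (r - 1)` into blocks of length at least two and a permutation `π` with
`B i = C (π i)`. -/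
def CommonStripPartition (S T : List ℕ) : Prop :=
  ∃ (r : ℕ) (B C : Fin r → List ℕ) (π : Equiv.Perm (Fin r)),
    (List.ofFn B).flatten = S ∧ (List.ofFn C).flatten = T ∧
    (∀ i, 2 ≤ (B i).length) ∧ (∀ i, 2 ≤ (C i).length) ∧ ∀ i, B i = C (π i)

/-- Two strings are balanced if every letter occurs equally often in both. -/
def Balanced (S T : List ℕ) : Prop := ∀ a, S.count a = T.count a

/-- Complementary Maximal Strip Recovery with parameter `k`. -/
def CMSR (k : ℕ) (G : List ℕ × List ℕ) : Prop :=
  ∃ G₁ G₂ : List ℕ, G₁.Sublist G.1 ∧ G₂.Sublist G.2 ∧ CommonStripPartition G₁ G₂ ∧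
    G.1.length - G₁.length ≤ k

theorem csp_iff_common (S T : List ℕ) : CSP S T ↔ CommonStripPartition S T := by
  constructor
  · rintro ⟨B, C, ⟨hB, hB2⟩, ⟨hC, hC2⟩, hBC⟩
    have hlen := hBC.length_eq
    have h1 : B.Perm (List.ofFn fun i : Fin B.length => C[(i : ℕ)]) := by
      refine hBC.trans (List.Perm.of_eq ?_)
      apply List.ext_getElem
      · simp [hlen]
      · intro i h1 h2
        simp
    have h2 : (Finset.univ : Finset (Fin B.length)).val.map
          (fun i : Fin B.length => B[(i : ℕ)]) =
        (Finset.univ : Finset (Fin B.length)).val.map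
          (fun i : Fin B.length => C[(i : ℕ)]'(by omega)) := by
      rw [Fin.univ_val_map, Fin.univ_val_map]
      have e1 : List.ofFn (fun i : Fin B.length => B[(i : ℕ)]) = B := List.ofFn_getElem
      rw [e1]
      exact Multiset.coe_eq_coe.2 h1
    obtain ⟨π, hπ⟩ : ∃ π : Equiv.Perm (Fin B.length),
        ∀ i : Fin B.length, C[((π i : Fin B.length) : ℕ)]'(by omega) = B[(i : ℕ)] := by
      classical
      have hc : ∀ v, Fintype.card {x : Fin B.length // B[(x : ℕ)] = v} =
          Fintype.card {y : Fin B.length // C[(y : ℕ)]'(by omega) = v} := by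
        intro v
        have h3 := congrArg (Multiset.count v) h2
        rw [Multiset.count_map, Multiset.count_map] at h3
        rw [Fintype.card_subtype, Fintype.card_subtype, Finset.card_def, Finset.card_def,
          Finset.filter_val, Finset.filter_val]
        simp only [eq_comm (a := v)] at h3
        exact h3
      let e : Fin B.length ≃ Fin B.length :=
        (Equiv.sigmaFiberEquiv fun x : Fin B.length => B[(x : ℕ)]).symm.trans
        ((Equiv.sigmaCongrRight fun v => Fintype.equivOfCardEq (hc v)).trans
          (Equiv.sigmaFiberEquiv fun y : Fin B.length => C[(y : ℕ)]'(by omega)))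
      refine ⟨e, fun x => ?_⟩
      exact (Fintype.equivOfCardEq (hc B[(x : ℕ)]) ⟨x, rfl⟩).2
    refine ⟨B.length, fun i => B[(i : ℕ)], fun i => C[(i : ℕ)]'(by omega), π, ?_, ?_, ?_, ?_, ?_⟩
    · rw [List.ofFn_getElem, hB]
    · rw [← hC]
      congr 1
      apply List.ext_getElem
      · simp [hlen]
      · intro i h1 h2
        simp
    · intro i
      exact hB2 _ (List.getElem_mem _)
    · intro i
      exact hC2 _ (List.getElem_mem _)
    · intro i
      exact (hπ i).symm
  · rintro ⟨r, B, C, π, hB, hC, hB2, hC2, h⟩
    refine ⟨List.ofFn B, List.ofFn C, ⟨hB, ?_⟩, ⟨hC, ?_⟩, ?_⟩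
    · intro b hb
      obtain ⟨i, rfl⟩ := List.mem_ofFn.1 hb
      exact hB2 i
    · intro b hb
      obtain ⟨i, rfl⟩ := List.mem_ofFn.1 hb
      exact hC2 i
    · have e1 : B = C ∘ π := funext h
      rw [e1]
      exact Equiv.Perm.ofFn_comp_perm π C

theorem CSP.perm {S T : List ℕ} (h : CSP S T) : S.Perm T := by
  obtain ⟨B, C, ⟨hB, -⟩, ⟨hC, -⟩, hBC⟩ := h
  rw [← hB, ← hC]
  exact hBC.flatten

theorem cmsr_zero {S T : List ℕ} (hb : Balanced S T) :
    CMSR 0 (S, T) ↔ CommonStripPartition S T := by
  have hp : S.Perm T := List.perm_iff_count.2 hb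
  constructor
  · rintro ⟨G₁, G₂, h1, h2, h3, h4⟩
    dsimp only at h1 h2 h4
    have e1 : G₁ = S := h1.eq_of_length (by have := h1.length_le; omega)
    have e3 := ((csp_iff_common _ _).2 h3).perm.length_eq
    have e2 : G₂ = T := h2.eq_of_length (by rw [← e3, e1, hp.length_eq])
    rw [e1, e2] at h3
    exact h3
  · intro h
    exact ⟨S, T, List.Sublist.refl _, List.Sublist.refl _, h, by simp⟩

/-! ### The instances are balanced -/

theorem cnt_sa (a : ℕ) (L : List ℕ) : (L.map sa).flatten.count a =
    (L.map na).flatten.count a + L.length * (if (5 : ℕ) == a then 1 else 0) := by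
  induction L with
  | nil => simp
  | cons x L ih =>
    simp only [List.map_cons, List.flatten_cons, List.count_append, ih, List.length_cons,
      Nat.succ_mul]
    simp only [sa, na, List.count_cons, List.count_nil]
    omega

theorem cnt_sb (a : ℕ) (L : List ℕ) : (L.map sb).flatten.count a +
    L.length * (if (5 : ℕ) == a then 1 else 0) =
    (L.map nb).flatten.count a + L.length * (if (6 : ℕ) == a then 1 else 0) := by
  induction L with
  | nil => simp
  | cons x L ih =>
    simp only [List.map_cons, List.flatten_cons, List.count_append, List.length_cons,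
      Nat.succ_mul]
    have e : (sb x).count a + (if (5 : ℕ) == a then 1 else 0) =
        (nb x).count a + (if (6 : ℕ) == a then 1 else 0) := by
      simp only [sb, nb, List.count_cons, List.count_nil]
      omega
    omega

theorem cnt_sc (a : ℕ) (L : List ℕ) : (L.map sc).flatten.count a +
    L.length * (if (6 : ℕ) == a then 1 else 0) = (L.map nc).flatten.count a := by
  induction L with
  | nil => simp
  | cons x L ih =>
    simp only [List.map_cons, List.flatten_cons, List.count_append, List.length_cons,
      Nat.succ_mul]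
    have e : (sc x).count a + (if (6 : ℕ) == a then 1 else 0) = (nc x).count a := by
      simp only [sc, nc, List.count_cons, List.count_nil]
    omega

theorem cnt_perm (f : ℕ → List ℕ) (a : ℕ) {L L' : List ℕ} (h : L.Perm L') :
    (L.map f).flatten.count a = (L'.map f).flatten.count a :=
  ((h.map f).flatten).count_eq a

theorem balanced_seg (S : List Tri) (h1 : (F S 0).length = (F S 1).length)
    (h2 : (F S 1).length = (F S 2).length) : Balanced (segS S).flatten (segT S).flatten := by
  intro a
  obtain ⟨B, b1, -, b3⟩ := build S [] S (by simp)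
  have e1 : (segS S).flatten.count a = (B ++ S.flatMap fun _ => [V, V, V]).flatten.count a := by
    unfold segS
    rw [List.flatten_append, List.flatten_append, b1]
  have e2 : (segT S).flatten.count a = _ := ((segT_perm S).flatten).count_eq a
  have e3 := (b3.flatten).count_eq a
  have e4 := ((sel_perm [] S).flatten).count_eq a
  rw [e1, e2]
  simp only [List.flatten_append, List.count_append, List.flatMap_nil, List.nil_append] at e3 e4 ⊢
  rw [tok_eq]
  unfold six at e4 ⊢
  simp only [List.flatten_append, List.count_append, List.map_nil, List.flatten_nil,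
    List.count_nil] at e4 ⊢
  have p0 := cnt_perm na a (FN_perm S 0)
  have p1 := cnt_perm nb a (FN_perm S 1)
  have p2 := cnt_perm nc a (FN_perm S 2)
  simp only [List.map_append, List.flatten_append, List.count_append] at p0 p1 p2
  have c0 := cnt_sa a (F S 0)
  have c1 := cnt_sb a (F S 1)
  have c2 := cnt_sc a (F S 2)
  rw [h1] at c0
  rw [← h2] at c2
  omega

/-- The reduction. -/
def red (I : List Tri × ℕ) : List ℕ × List ℕ :=
  if (F I.1 0).length = (F I.1 1).length ∧ (F I.1 1).length = (F I.1 2).length then
    ((segS I.1).flatten, (segT I.1).flatten) else ([0, 1], [1, 0])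

theorem no_inst : ¬ CSP [0, 1] [1, 0] := by
  rintro ⟨B, C, ⟨hB, hB2⟩, ⟨hC, hC2⟩, hBC⟩
  have h1 := single hB (by simp) (by simp) hB2
  have h2 := single hC (by simp) (by simp) hC2
  rw [h1, h2] at hBC
  have h3 : ([0, 1] : List ℕ) ∈ [[1, 0]] := hBC.subset (by simp)
  simp at h3

theorem red_balanced (I : List Tri × ℕ) : Balanced (red I).1 (red I).2 := by
  unfold red
  split_ifs with h
  · exact balanced_seg I.1 h.1 h.2
  · intro a
    simp only [List.count_cons, List.count_nil]
    omega

theorem red_iff {I : List Tri × ℕ} (h : Pr I.1 I.2) :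
    X3C I ↔ CommonStripPartition (red I).1 (red I).2 := by
  rw [← csp_iff_common]
  unfold red
  split_ifs with hc
  · exact csp_iff h
  · refine iff_of_false ?_ no_inst
    rintro ⟨C, hC, hp⟩
    obtain ⟨h0, h1, h2⟩ := (cover_iff h hC).1 hp
    have e0 := h0.length_eq
    have e1 := h1.length_eq
    have e2 := h2.length_eq
    simp only [List.length_map] at e0 e1 e2
    exact hc ⟨by omega, by omega⟩

/-! ### Polynomial time -/

section Gen
variable {α : Type} [TEnc α]

theorem poly_F {S : α → List Tri} (r : ℕ) (hS : Poly S) : Poly fun a => F (S a) r := by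
  unfold F
  have h1 : Poly (fun p : α × ℕ => cmp (S p.1) r p.2) := poly_cmp r (hS.comp (by fun_prop))
    (by fun_prop)
  have h2 : Poly (fun p : α × ℕ => rl (S p.1) r p.2) := poly_rl r (hS.comp (by fun_prop))
    (by fun_prop)
  exact NPC.Poly.map (Poly.filter (UPoly.length hS).range h2) h1

theorem poly_tok {S : α → List Tri} {i : α → ℕ} (hS : Poly S) (hi : Poly i) :
    Poly (fun a => ta (S a) (i a)) ∧ Poly (fun a => tb (S a) (i a)) ∧
      Poly (fun a => tc (S a) (i a)) := by
  have c0 := poly_cmp 0 hS hi
  have c1 := poly_cmp 1 hS hi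
  have c2 := poly_cmp 2 hS hi
  have r0 := poly_rl 0 hS hi
  have r1 := poly_rl 1 hS hi
  have r2 := poly_rl 2 hS hi
  unfold ta tb tc sa na sb nb sc nc
  exact ⟨by fun_prop, by fun_prop, by fun_prop⟩

theorem poly_segS : Poly segS := by
  unfold segS W U V
  fun_prop

theorem poly_segT : Poly segT := by
  unfold segT
  have h0 : Poly (fun S : List Tri => List.range S.length) := (UPoly.length Poly.id).range
  obtain ⟨h1, h2, h3⟩ := poly_tok (S := fun p : List Tri × ℕ => p.1) (i := fun p => p.2)
    (by fun_prop) (by fun_prop)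
  unfold U V
  fun_prop

theorem poly_red : Poly red := by
  unfold red
  have f0 := poly_F (S := fun I : List Tri × ℕ => I.1) 0 (by fun_prop)
  have f1 := poly_F (S := fun I : List Tri × ℕ => I.1) 1 (by fun_prop)
  have f2 := poly_F (S := fun I : List Tri × ℕ => I.1) 2 (by fun_prop)
  have g1 : Poly (fun I : List Tri × ℕ => segS I.1) := poly_segS.comp (by fun_prop)
  have g2 : Poly (fun I : List Tri × ℕ => segT I.1) := poly_segT.comp (by fun_prop)
  fun_prop

end Gen

/-- **Deciding the existence of a common strip partition is NP-hard on balanced strings.** -/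
theorem hardPr_common : HardPr (fun G : List ℕ × List ℕ => Balanced G.1 G.2)
    (fun G => CommonStripPartition G.1 G.2) :=
  hardPr_X3Cr.trans poly_red (fun I _ => red_balanced I) fun _ hI => red_iff hI

end Pool.Agent.U20.CS
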