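import Pool.Agent.U20.CS.Comb

/-!
# Common strip partitions: correctness of the reduction, continued
-/

set_option autoImplicit false

namespace Pool.Agent.U20.CS

open Pool.Agent.NPC Pool.Agent.NPC.H632 Pool.Agent.H557R2.Tri

/-- A common strip partition gives a selection of triples. -/
theorem csp_extract {S : List Tri} (h : CSP (segS S).flatten (segT S).flatten) :
    ∃ C D : List Tri, (C ++ D).Perm S ∧ (C.flatMap sel ++ D.flatMap uns).Perm (tok S) := by
  obtain ⟨B, C, ⟨hB, hB2⟩, ⟨hC, hC2⟩, hBC⟩ := h
  have hne : ∀ {b : List ℕ}, 2 ≤ b.length → b ≠ [] := by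
    rintro b hb rfl
    simp at hb
  have hC1 : ∀ b ∈ C, b.IsChain RS := fun b hb =>
    chain_of_mem_flatten B (hB ▸ chainS S) b (hBC.symm.subset hb)
  have hB1 : ∀ b ∈ B, b.IsChain RT := fun b hb =>
    chain_of_mem_flatten C (hC ▸ chainT S) b (hBC.subset hb)
  obtain ⟨CC, c1, c2⟩ := cut_all (segT S) C hC (fun s hs => (chainRT_seg S s hs).1)
    (fun b hb => hne (hC2 b hb)) hC1
    ((chainJ2 S).imp fun _ _ h x hx y hy => (h x hx y hy).2)
  obtain ⟨BB, b1, b2⟩ := cut_all (segS S) B hB (fun s hs => (chainRS_seg S s hs).1)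
    (fun b hb => hne (hB2 b hb)) hB1
    ((chainJ1 S).imp fun _ _ h x hx y hy => (h x hx y hy).2)
  have hCT : C = segT S := by
    rw [← c1]
    exact all_single CC _ c2 (fun s hs => ⟨(chainRT_seg S s hs).1, (len_segT hs).2⟩)
      (fun b hb => hC2 b (c1 ▸ hb))
  have hgood : ∀ p ∈ BB, ∀ b ∈ p, 2 ≤ b.length ∧ b.length ≤ 3 ∧ ∀ y, b ≠ [5, 16 * y + 2, 6] := by
    intro p hp b hb
    have h1 : b ∈ segT S := hCT ▸ hBC.subset (b1 ▸ List.mem_flatten.2 ⟨p, hp, hb⟩)
    exact ⟨(len_segT h1).1, (len_segT h1).2, no_mid h1⟩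
  obtain ⟨C', D, BB', h1, h2, h3, h4⟩ := extract _ S BB hgood b2
  have h5 : BB'.flatten = S.flatMap fun _ => [V, V, V] := by
    refine all_single BB' _ h3 ?_ ?_
    · intro s hs
      obtain ⟨t, -, hs⟩ := List.mem_flatMap.1 hs
      simp only [List.mem_cons, List.not_mem_nil, or_false, or_self] at hs
      subst hs
      simp [V]
    · intro b hb
      obtain ⟨p, hp, hb⟩ := List.mem_flatten.1 hb
      exact (hgood p (h4 p hp) b hb).1
  refine ⟨C', D, h2, ?_⟩
  have h6 : (C'.flatMap sel ++ D.flatMap uns ++ ((S.map fun _ => U) ++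
      S.flatMap fun _ => [V, V, V])).Perm (tok S ++ ((S.map fun _ => U) ++
      S.flatMap fun _ => [V, V, V])) := by
    refine List.Perm.trans ?_ (segT_perm S)
    rw [← hCT, ← List.append_assoc, ← h5]
    exact h1.symm.trans (b1 ▸ hBC)
  exact (List.perm_append_right_iff _).1 h6

/-- A selection of triples gives the blocks of the first string. -/
theorem build : ∀ (S C D : List Tri), (C ++ D).Perm S →
    ∃ B : List (List ℕ), B.flatten = (S.flatMap fun t => [W t, U]).flatten ∧
      (∀ b ∈ B, 2 ≤ b.length) ∧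
      B.Perm (C.flatMap sel ++ D.flatMap uns ++ S.map fun _ => U) := by
  intro S
  induction S with
  | nil =>
    intro C D h
    have h' := h.eq_nil
    obtain ⟨rfl, rfl⟩ := List.append_eq_nil_iff.1 h'
    exact ⟨[], by simp, by simp, by simp⟩
  | cons t S ih =>
    intro C D h
    have ht : t ∈ C ++ D := h.symm.subset (List.mem_cons_self ..)
    have hs : (sel t).flatten = W t := rfl
    have hu : (uns t).flatten = W t := rfl
    rcases List.mem_append.1 ht with ht | ht
    · have e1 : C.Perm (t :: C.erase t) := List.perm_cons_erase ht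
      obtain ⟨B, h1, h2, h3⟩ := ih (C.erase t) D
        (List.Perm.cons_inv ((e1.append_right D).symm.trans h))
      refine ⟨sel t ++ U :: B, ?_, ?_, ?_⟩
      · simp only [List.flatten_append, List.flatten_cons, h1, hs, List.flatMap_cons,
          List.cons_append, List.nil_append]
      · intro b hb
        simp only [sel, List.mem_append, List.mem_cons, List.not_mem_nil, or_false] at hb
        rcases hb with (rfl | rfl | rfl) | rfl | hb
        · simp [sa]
        · simp [sb]
        · simp [sc]
        · simp [U]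
        · exact h2 b hb
      · have e2 : (C.flatMap sel).Perm (sel t ++ (C.erase t).flatMap sel) := by
          have := e1.flatMap_right sel
          simpa using this
        rw [List.perm_iff_count] at h3 e2 ⊢
        intro a
        have h6 := h3 a
        have h7 := e2 a
        simp only [List.map_cons, List.count_append, List.count_cons] at h6 h7 ⊢
        omega
    · have e1 : D.Perm (t :: D.erase t) := List.perm_cons_erase ht
      obtain ⟨B, h1, h2, h3⟩ := ih C (D.erase t) (List.Perm.cons_inv
        (((e1.append_left C).trans List.perm_middle).symm.trans h))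
      refine ⟨uns t ++ U :: B, ?_, ?_, ?_⟩
      · simp only [List.flatten_append, List.flatten_cons, h1, hu, List.flatMap_cons,
          List.cons_append, List.nil_append]
      · intro b hb
        simp only [uns, List.mem_append, List.mem_cons, List.not_mem_nil, or_false] at hb
        rcases hb with (rfl | rfl | rfl) | rfl | hb
        · simp [na]
        · simp [nb]
        · simp [nc]
        · simp [U]
        · exact h2 b hb
      · have e2 : (D.flatMap uns).Perm (uns t ++ (D.erase t).flatMap uns) := by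
          have := e1.flatMap_right uns
          simpa using this
        rw [List.perm_iff_count] at h3 e2 ⊢
        intro a
        have h6 := h3 a
        have h7 := e2 a
        simp only [List.map_cons, List.count_append, List.count_cons] at h6 h7 ⊢
        omega

theorem csp_build {S C D : List Tri} (h : (C ++ D).Perm S)
    (h' : (C.flatMap sel ++ D.flatMap uns).Perm (tok S)) :
    CSP (segS S).flatten (segT S).flatten := by
  obtain ⟨B, h1, h2, h3⟩ := build S C D h
  refine ⟨B ++ S.flatMap fun _ => [V, V, V], segT S, ⟨?_, ?_⟩, ⟨rfl, fun b hb =>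
    (len_segT hb).1⟩, ?_⟩
  · rw [List.flatten_append, h1]
    unfold segS
    rw [List.flatten_append]
  · intro b hb
    rcases List.mem_append.1 hb with hb | hb
    · exact h2 b hb
    · obtain ⟨t, -, hs⟩ := List.mem_flatMap.1 hb
      simp only [List.mem_cons, List.not_mem_nil, or_false, or_self] at hs
      subst hs
      simp [V]
  · refine List.Perm.trans ?_ (segT_perm S).symm
    refine (h3.append_right _).trans ?_
    rw [List.append_assoc]
    exact h'.append_right _

/-! ### Decoding -/

def da (b : List ℕ) : Option ℕ :=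
  match b with
  | [p, _, c] => if p % 16 = 0 ∧ c = 5 then some (p / 16) else none
  | _ => none

def db (b : List ℕ) : Option ℕ :=
  match b with
  | [p, _] => if p % 16 = 2 then some (p / 16) else none
  | _ => none

def dc (b : List ℕ) : Option ℕ :=
  match b with
  | [p, _] => if p % 16 = 3 then some (p / 16) else none
  | _ => none

theorem fm_some {d : List ℕ → Option ℕ} {f : ℕ → List ℕ} (h : ∀ x, d (f x) = some x)
    (l : List ℕ) : (l.map f).filterMap d = l := by
  induction l with
  | nil => rfl
  | cons a l ih => rw [List.map_cons, List.filterMap_cons, h, ih]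

theorem fm_none {d : List ℕ → Option ℕ} {f : ℕ → List ℕ} (h : ∀ x, d (f x) = none)
    (l : List ℕ) : (l.map f).filterMap d = [] := by
  induction l with
  | nil => rfl
  | cons a l ih => rw [List.map_cons, List.filterMap_cons, h, ih]

theorem da_sa (x : ℕ) : da (sa x) = some x := by simp [da, sa]
theorem da_na (x : ℕ) : da (na x) = none := rfl
theorem da_sb (x : ℕ) : da (sb x) = none := rfl
theorem da_nb (x : ℕ) : da (nb x) = none := rfl
theorem da_sc (x : ℕ) : da (sc x) = none := rfl
theorem da_nc (x : ℕ) : da (nc x) = none := by simp [da, nc]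
theorem db_sa (x : ℕ) : db (sa x) = none := rfl
theorem db_na (x : ℕ) : db (na x) = none := by simp [db, na]
theorem db_sb (x : ℕ) : db (sb x) = some x := by
  simp only [db, sb]
  rw [if_pos (by omega)]
  congr 1
  omega
theorem db_nb (x : ℕ) : db (nb x) = none := by simp [db, nb]
theorem db_sc (x : ℕ) : db (sc x) = none := by
  simp only [db, sc]
  rw [if_neg (by omega)]
theorem db_nc (x : ℕ) : db (nc x) = none := rfl
theorem dc_sa (x : ℕ) : dc (sa x) = none := rfl
theorem dc_na (x : ℕ) : dc (na x) = none := by simp [dc, na]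
theorem dc_sb (x : ℕ) : dc (sb x) = none := by
  simp only [dc, sb]
  rw [if_neg (by omega)]
theorem dc_nb (x : ℕ) : dc (nb x) = none := by simp [dc, nb]
theorem dc_sc (x : ℕ) : dc (sc x) = some x := by
  simp only [dc, sc]
  rw [if_pos (by omega)]
  congr 1
  omega
theorem dc_nc (x : ℕ) : dc (nc x) = none := rfl

/-- The blocks, sorted by their roles. -/
def six (a a' b b' c c' : List ℕ) : List (List ℕ) :=
  (a.map sa ++ a'.map na) ++ (b.map sb ++ b'.map nb) ++ (c.map sc ++ c'.map nc)

theorem six_a (a a' b b' c c' : List ℕ) : (six a a' b b' c c').filterMap da = a := by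
  simp only [six, List.filterMap_append, fm_some da_sa, fm_none da_na, fm_none da_sb,
    fm_none da_nb, fm_none da_sc, fm_none da_nc, List.append_nil]

theorem six_b (a a' b b' c c' : List ℕ) : (six a a' b b' c c').filterMap db = b := by
  simp only [six, List.filterMap_append, fm_some db_sb, fm_none db_na, fm_none db_sa,
    fm_none db_nb, fm_none db_sc, fm_none db_nc, List.append_nil, List.nil_append]

theorem six_c (a a' b b' c c' : List ℕ) : (six a a' b b' c c').filterMap dc = c := by
  simp only [six, List.filterMap_append, fm_some dc_sc, fm_none dc_na, fm_none dc_sa,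
    fm_none dc_nb, fm_none dc_sb, fm_none dc_nc, List.append_nil, List.nil_append]

theorem sel_perm (C D : List Tri) : (C.flatMap sel ++ D.flatMap uns).Perm
    (six (C.map (cp 0)) (D.map (cp 0)) (C.map (cp 1)) (D.map (cp 1)) (C.map (cp 2))
      (D.map (cp 2))) := by
  have h1 : (C.flatMap sel).Perm _ := flatMap_triple (fun t : Tri => sa (cp 0 t))
    (fun t => sb (cp 1 t)) (fun t => sc (cp 2 t)) C
  have h2 : (D.flatMap uns).Perm _ := flatMap_triple (fun t : Tri => na (cp 0 t))
    (fun t => nb (cp 1 t)) (fun t => nc (cp 2 t)) D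
  refine (h1.append h2).trans ?_
  unfold six
  simp only [List.map_map, Function.comp_def]
  rw [List.perm_iff_count]
  intro a
  simp only [List.count_append]
  omega

theorem tok_eq (S : List Tri) :
    tok S = six (F S 0) (N S 0) (F S 1) (N S 1) (F S 2) (N S 2) := rfl

theorem six_iff {S C D : List Tri} (h : (C ++ D).Perm S) :
    (C.flatMap sel ++ D.flatMap uns).Perm (tok S) ↔
      (C.map (cp 0)).Perm (F S 0) ∧ (C.map (cp 1)).Perm (F S 1) ∧ (C.map (cp 2)).Perm (F S 2) := by
  rw [tok_eq]
  constructor
  · intro h1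
    have h2 := (sel_perm C D).symm.trans h1
    refine ⟨?_, ?_, ?_⟩
    · simpa only [six_a] using h2.filterMap da
    · simpa only [six_b] using h2.filterMap db
    · simpa only [six_c] using h2.filterMap dc
  · rintro ⟨h0, h1, h2⟩
    have key : ∀ r, (C.map (cp r)).Perm (F S r) → (D.map (cp r)).Perm (N S r) := by
      intro r hr
      have e1 : (C.map (cp r) ++ D.map (cp r)).Perm (F S r ++ N S r) := by
        rw [← List.map_append]
        exact (h.map _).trans (FN_perm S r).symm
      exact (List.perm_append_left_iff _).1 (e1.trans (hr.symm.append_right _))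
    refine (sel_perm C D).trans ?_
    unfold six
    exact (((h0.map _).append ((key 0 h0).map _)).append
      ((h1.map _).append ((key 1 h1).map _))).append ((h2.map _).append ((key 2 h2).map _))

variable {S : List Tri} {q : ℕ}

theorem F_all (h : Pr S q) : (F S 0 ++ F S 1 ++ F S 2).Perm (List.range (3 * q)) := by
  rw [List.perm_ext_iff_of_nodup _ List.nodup_range]
  · intro e
    simp only [List.mem_append, mem_F, List.mem_map, List.mem_range]
    constructor
    · rintro ((⟨t, ht, rfl⟩ | ⟨t, ht, rfl⟩) | ⟨t, ht, rfl⟩)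
      · exact (h.lt t ht).1
      · exact (h.lt t ht).2.1
      · exact (h.lt t ht).2.2
    · intro he
      obtain ⟨t, ht, het⟩ := h.occ e he
      simp only [el, List.mem_cons, List.not_mem_nil, or_false] at het
      rcases het with rfl | rfl | rfl
      · exact Or.inl (Or.inl ⟨t, ht, rfl⟩)
      · exact Or.inl (Or.inr ⟨t, ht, rfl⟩)
      · exact Or.inr ⟨t, ht, rfl⟩
  · rw [List.nodup_append, List.nodup_append]
    refine ⟨⟨F_nodup S 0, F_nodup S 1, ?_⟩, F_nodup S 2, ?_⟩
    · intro x hx y hy
      obtain ⟨t, ht, rfl⟩ := List.mem_map.1 (mem_F.1 hx)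
      obtain ⟨t', ht', rfl⟩ := List.mem_map.1 (mem_F.1 hy)
      exact h.d01 t ht t' ht'
    · intro x hx y hy
      obtain ⟨t', ht', rfl⟩ := List.mem_map.1 (mem_F.1 hy)
      rcases List.mem_append.1 hx with hx | hx
      · obtain ⟨t, ht, rfl⟩ := List.mem_map.1 (mem_F.1 hx)
        exact h.d02 t ht t' ht'
      · obtain ⟨t, ht, rfl⟩ := List.mem_map.1 (mem_F.1 hx)
        exact h.d12 t ht t' ht'

theorem el_perm (C : List Tri) :
    (C.flatMap el).Perm (C.map (cp 0) ++ C.map (cp 1) ++ C.map (cp 2)) :=
  flatMap_triple _ _ _ _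

theorem cover_iff (h : Pr S q) {C : List Tri} (hC : ∀ t ∈ C, t ∈ S) :
    (C.flatMap el).Perm (List.range (3 * q)) ↔
      (C.map (cp 0)).Perm (F S 0) ∧ (C.map (cp 1)).Perm (F S 1) ∧ (C.map (cp 2)).Perm (F S 2) := by
  constructor
  · intro h1
    have h2 : (C.map (cp 0) ++ C.map (cp 1) ++ C.map (cp 2)).Perm (F S 0 ++ F S 1 ++ F S 2) :=
      (el_perm C).symm.trans (h1.trans (F_all h).symm)
    have hnd : (C.map (cp 0) ++ C.map (cp 1) ++ C.map (cp 2)).Nodup :=
      h2.nodup_iff.2 ((F_all h).nodup_iff.2 List.nodup_range)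
    rw [List.nodup_append, List.nodup_append] at hnd
    obtain ⟨⟨n0, n1, -⟩, n2, -⟩ := hnd
    have hin : ∀ {r x}, x ∈ C.map (cp r) → x ∈ F S r := by
      intro r x hx
      obtain ⟨t, ht, rfl⟩ := List.mem_map.1 hx
      exact mem_F.2 (List.mem_map_of_mem (hC t ht))
    have hb : ∀ {x}, x ∈ F S 0 ∨ x ∈ F S 1 ∨ x ∈ F S 2 →
        x ∈ C.map (cp 0) ∨ x ∈ C.map (cp 1) ∨ x ∈ C.map (cp 2) := by
      intro x hx
      have h3 : x ∈ F S 0 ++ F S 1 ++ F S 2 := by
        simp only [List.mem_append]
        tauto
      have h4 := h2.symm.subset h3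
      simp only [List.mem_append] at h4
      tauto
    have d01 : ∀ {x}, x ∈ F S 0 → x ∈ F S 1 → False := by
      intro x hx hy
      obtain ⟨t, ht, e⟩ := List.mem_map.1 (mem_F.1 hx)
      obtain ⟨t', ht', e'⟩ := List.mem_map.1 (mem_F.1 hy)
      exact h.d01 t ht t' ht' (e.trans e'.symm)
    have d02 : ∀ {x}, x ∈ F S 0 → x ∈ F S 2 → False := by
      intro x hx hy
      obtain ⟨t, ht, e⟩ := List.mem_map.1 (mem_F.1 hx)
      obtain ⟨t', ht', e'⟩ := List.mem_map.1 (mem_F.1 hy)
      exact h.d02 t ht t' ht' (e.trans e'.symm)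
    have d12 : ∀ {x}, x ∈ F S 1 → x ∈ F S 2 → False := by
      intro x hx hy
      obtain ⟨t, ht, e⟩ := List.mem_map.1 (mem_F.1 hx)
      obtain ⟨t', ht', e'⟩ := List.mem_map.1 (mem_F.1 hy)
      exact h.d12 t ht t' ht' (e.trans e'.symm)
    refine ⟨?_, ?_, ?_⟩
    · rw [List.perm_ext_iff_of_nodup n0 (F_nodup S 0)]
      intro x
      refine ⟨hin, fun hx => ?_⟩
      rcases hb (Or.inl hx) with h5 | h5 | h5
      · exact h5
      · exact (d01 hx (hin h5)).elim
      · exact (d02 hx (hin h5)).elim
    · rw [List.perm_ext_iff_of_nodup n1 (F_nodup S 1)]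
      intro x
      refine ⟨hin, fun hx => ?_⟩
      rcases hb (Or.inr (Or.inl hx)) with h5 | h5 | h5
      · exact (d01 (hin h5) hx).elim
      · exact h5
      · exact (d12 hx (hin h5)).elim
    · rw [List.perm_ext_iff_of_nodup n2 (F_nodup S 2)]
      intro x
      refine ⟨hin, fun hx => ?_⟩
      rcases hb (Or.inr (Or.inr hx)) with h5 | h5 | h5
      · exact (d02 (hin h5) hx).elim
      · exact (d12 (hin h5) hx).elim
      · exact h5
  · rintro ⟨h0, h1, h2⟩
    exact (el_perm C).trans (((h0.append h1).append h2).trans (F_all h))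

/-- **Correctness of the reduction.** -/
theorem csp_iff (h : Pr S q) : X3C (S, q) ↔ CSP (segS S).flatten (segT S).flatten := by
  constructor
  · rintro ⟨C, hC, hp⟩
    have hnd : C.Nodup := by
      have h1 : (C.map (cp 0)).Nodup := ((cover_iff h hC).1 hp).1.nodup_iff.2 (F_nodup S 0)
      exact h1.of_map _
    obtain ⟨D, hD⟩ : ∃ D, (C ++ D).Perm S := by
      obtain ⟨l, hl, hs⟩ := List.subperm_of_subset hnd hC
      obtain ⟨D, hD⟩ := hs.exists_perm_append
      exact ⟨D, (hl.symm.append_right D).trans hD.symm⟩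
    exact csp_build hD ((six_iff hD).2 ((cover_iff h hC).1 hp))
  · intro h1
    obtain ⟨C, D, h2, h3⟩ := csp_extract h1
    have hC : ∀ t ∈ C, t ∈ S := fun t ht => h2.subset (List.mem_append_left _ ht)
    exact ⟨C, hC, (cover_iff h hC).2 ((six_iff h2).1 h3)⟩

end Pool.Agent.U20.CS
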